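import Pool.Agent.Lib.MP_75ff39_co.Universal

set_option autoImplicit false

/-!
# Every countable partial order is represented by highly connected cubic graphs

For `k = 4` and `k = 5` every countable partial order embeds in the class `𝒞_k` of cyclically
`k`-edge-connected cubic graphs with the cycle-continuous order.

The graphs are doubles of well connected networks that contain, for every string of a finite
set of binary strings, a directed ring of copies of a rigid uncolourable piece `K` (a ring of seven
Petersen negators); the length of the ring codes the string, so that divisibility of lengths is
the prefix order of strings. A cycle-continuous map has to send every copy of `K` isomorphically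
onto a copy of `K`, so rings cover rings. Rings are joined through long chains of colourable blocks,
which never obstruct maps. The sets of strings come from a coding of countable partial orders in
the free Boolean algebra.
-/

namespace Pool.Agent.Results.MP_75ff39_co.CountablePosets

open Pool.Agent.Lib.MP_75ff39_co

/-- For `k = 4` and for `k = 5` the class `𝒞_k` of cyclically `k`-edge-connected cubic graphs,
ordered by existence of cycle-continuous maps, contains every countable partial order. -/
theorem result : ∀ k ∈ ({4, 5} : Set ℕ), ∀ (P : Type*) [PartialOrder P] [Countable P],
    ∃ (V : P → Type) (_ : ∀ p, Finite (V p)) (G : ∀ p, SimpleGraph (V p)),
      (∀ p, InClass k (G p)) ∧ ∀ p q, CCLE (G p) (G q) ↔ p ≤ q := by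
  intro k hk P _ _
  apply universal
  simp only [Set.mem_insert_iff, Set.mem_singleton_iff] at hk
  omega

end Pool.Agent.Results.MP_75ff39_co.CountablePosets
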